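import Pool.Agent.ESL.PRODREC
import Pool.Agent.ESL.ISOC
import Pool.Agent.ESL.J2R

/-!
# Recognition of products, group extensions and radicals for quaternionic structures, any `-1`

(helper18) The element `-1` is arbitrary.
-/

set_option autoImplicit false

namespace Pool.Agent.ETCM

open QS
open Pool.Agent.ESL.PRODRECX (prodEquiv prodEquiv_apply extHom extHom_one extHom_x extHom_bij one_q)

/-- The structure induced on a subgroup which is closed under (QS4), with distinguished element `e0`. -/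
def sub (S : QStruct) (A : Subgroup S.G) (e0 : A)
    (hd : ∀ a ∈ A, S.q a ((e0 : S.G) * a) = S.zero)
    (h4 : ∀ a ∈ A, ∀ b ∈ A, ∀ c ∈ A, ∀ d ∈ A, S.q a b = S.q c d →
      ∃ x ∈ A, S.q a b = S.q a x ∧ S.q c d = S.q c x) : QStruct where
  G := A
  Q := {β : S.Q // ∃ a b : A, S.q a b = β}
  neg := e0
  zero := ⟨S.zero, 1, 1, S.q_one 1⟩
  q := fun a b => ⟨S.q a b, a, b, rfl⟩
  exp_two := fun a => Subtype.ext (S.exp_two a)
  surj := by
    rintro ⟨β, a, b, h⟩
    exact ⟨a, b, Subtype.ext h⟩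
  qs1 := fun a => by
    apply Subtype.ext
    exact hd (a : S.G) a.2
  qs2 := fun a b => Subtype.ext (S.qs2 a b)
  qs3 := by
    intro a b c
    rw [Subtype.mk.injEq, Subtype.mk.injEq]
    exact S.qs3 _ _ _
  qs4 := by
    intro a b c d h
    obtain ⟨x, hx, h1, h2⟩ := h4 a a.2 b b.2 c c.2 d d.2 (congrArg Subtype.val h)
    exact ⟨⟨x, hx⟩, Subtype.ext h1, Subtype.ext h2⟩

section
variable (S : QStruct) (A : Subgroup S.G) (e0 : A)
    (hd : ∀ a ∈ A, S.q a ((e0 : S.G) * a) = S.zero)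
    (h4 : ∀ a ∈ A, ∀ b ∈ A, ∀ c ∈ A, ∀ d ∈ A, S.q a b = S.q c d →
      ∃ x ∈ A, S.q a b = S.q a x ∧ S.q c d = S.q c x)

theorem sub_zero_iff (x y : A) :
    (sub S A e0 hd h4).q x y = (sub S A e0 hd h4).zero ↔ S.q (x : S.G) (y : S.G) = S.zero := by
  show (⟨S.q (x : S.G) (y : S.G), _⟩ : {β : S.Q // ∃ a b : A, S.q a b = β}) = ⟨S.zero, _⟩ ↔ _
  rw [Subtype.mk.injEq]

theorem ext_zero_iff (u v : (sub S A e0 hd h4).G × Multiplicative (ZMod 2)) :
    (QS.ext (sub S A e0 hd h4)).q u v = (QS.ext (sub S A e0 hd h4)).zero ↔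
      extMap (sub S A e0 hd h4) u v = ((sub S A e0 hd h4).zero, (1 : (sub S A e0 hd h4).G)) := by
  show (⟨extMap (sub S A e0 hd h4) u v, _⟩ : {p : (sub S A e0 hd h4).Q × (sub S A e0 hd h4).G //
        ∃ u v, extMap (sub S A e0 hd h4) u v = p}) = ⟨((sub S A e0 hd h4).zero, 1), _⟩ ↔ _
  rw [Subtype.mk.injEq]

theorem ext_iff' (hneg : (e0 : S.G) = S.neg) (t : S.G) (ht : t * t = 1)
    (h1 : ∀ h ∈ A, ∀ h' ∈ A, S.q h (h' * t) = S.zero ↔ h = 1)
    (h2 : ∀ h ∈ A, ∀ h' ∈ A, S.q (h * t) (h' * t) = S.zero ↔ h' = S.neg * h)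
    (a b : A) (α β : Multiplicative (ZMod 2)) :
    extMap (sub S A e0 hd h4) (a, α) (b, β) =
      ((sub S A e0 hd h4).zero, (1 : (sub S A e0 hd h4).G)) ↔
        S.q (extHom A t ht (a, α)) (extHom A t ht (b, β)) = S.zero := by
  have hs := sub_zero_iff S A e0 hd h4
  have hS1 : ∀ b : A, (sub S A e0 hd h4).q (1 : A) b = (sub S A e0 hd h4).zero := fun b =>
    (hs 1 b).2 (one_q S b)
  have hS1' : ∀ b : A, (sub S A e0 hd h4).q b (1 : A) = (sub S A e0 hd h4).zero := fun b =>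
    (hs b 1).2 (S.q_one b)
  rcases two_cases α with rfl | rfl <;> rcases two_cases β with rfl | rfl
  · have e0' : extMap (sub S A e0 hd h4) (a, 1) (b, 1) = ((sub S A e0 hd h4).q a b, 1) :=
      extMap_one_one (sub S A e0 hd h4) a b
    rw [e0', extHom_one, extHom_one, Prod.mk.injEq]
    constructor
    · rintro ⟨e, -⟩
      exact (hs a b).1 e
    · intro e
      exact ⟨(hs a b).2 e, rfl⟩
  · have e0' : extMap (sub S A e0 hd h4) (a, 1) (b, Multiplicative.ofAdd 1) =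
      ((sub S A e0 hd h4).q a b, a) := extMap_one_x (sub S A e0 hd h4) a b
    have key : extMap (sub S A e0 hd h4) (a, 1) (b, Multiplicative.ofAdd 1) =
      ((sub S A e0 hd h4).zero, (1 : (sub S A e0 hd h4).G)) ↔
        ((sub S A e0 hd h4).q a b = (sub S A e0 hd h4).zero ∧ a = (1 : A)) := by
      rw [e0']; exact Prod.ext_iff
    rw [key, extHom_one, extHom_x, h1 _ a.2 _ b.2]
    constructor
    · rintro ⟨-, e⟩
      exact congrArg Subtype.val e
    · intro e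
      have e' : a = (1 : A) := Subtype.ext e
      subst e'
      exact ⟨hS1 b, rfl⟩
  · have e0' : extMap (sub S A e0 hd h4) (a, Multiplicative.ofAdd 1) (b, 1) =
      ((sub S A e0 hd h4).q a b, b) := extMap_x_one (sub S A e0 hd h4) a b
    have key : extMap (sub S A e0 hd h4) (a, Multiplicative.ofAdd 1) (b, 1) =
      ((sub S A e0 hd h4).zero, (1 : (sub S A e0 hd h4).G)) ↔
        ((sub S A e0 hd h4).q a b = (sub S A e0 hd h4).zero ∧ b = (1 : A)) := by
      rw [e0']; exact Prod.ext_iff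
    rw [key, extHom_one, extHom_x, S.qs2, h1 _ b.2 _ a.2]
    constructor
    · rintro ⟨-, e⟩
      exact congrArg Subtype.val e
    · intro e
      have e' : b = (1 : A) := Subtype.ext e
      subst e'
      exact ⟨hS1' a, rfl⟩
  · have e0' : extMap (sub S A e0 hd h4) (a, Multiplicative.ofAdd 1) (b, Multiplicative.ofAdd 1) =
      ((sub S A e0 hd h4).q a b, (e0 * a * b : A)) := extMap_x_x (sub S A e0 hd h4) a b
    have key : extMap (sub S A e0 hd h4) (a, Multiplicative.ofAdd 1) (b, Multiplicative.ofAdd 1) =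
      ((sub S A e0 hd h4).zero, (1 : (sub S A e0 hd h4).G)) ↔
        ((sub S A e0 hd h4).q a b = (sub S A e0 hd h4).zero ∧ (e0 * a * b : A) = 1) := by
      rw [e0']; exact Prod.ext_iff
    rw [key, extHom_x, extHom_x, h2 _ a.2 _ b.2]
    constructor
    · rintro ⟨-, e⟩
      have e' : (e0 : S.G) * (a : S.G) * (b : S.G) = 1 := congrArg Subtype.val e
      rw [hneg] at e'
      exact ((eq_iff_mul S _ _).2 e').symm
    · intro e
      constructor
      · rw [hs, e]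
        exact S.qs1 _
      · apply Subtype.ext
        show (e0 : S.G) * (a : S.G) * (b : S.G) = 1
        rw [hneg, e]
        exact S.exp_two _

end

theorem prod_iff (S : QStruct) (A B : Subgroup S.G) (a0 : A) (b0 : B)
    (hdA : ∀ a ∈ A, S.q a ((a0 : S.G) * a) = S.zero)
    (hdB : ∀ b ∈ B, S.q b ((b0 : S.G) * b) = S.zero)
    (h4A : ∀ a ∈ A, ∀ b ∈ A, ∀ c ∈ A, ∀ d ∈ A, S.q a b = S.q c d →
      ∃ x ∈ A, S.q a b = S.q a x ∧ S.q c d = S.q c x)
    (h4B : ∀ a ∈ B, ∀ b ∈ B, ∀ c ∈ B, ∀ d ∈ B, S.q a b = S.q c d →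
      ∃ x ∈ B, S.q a b = S.q a x ∧ S.q c d = S.q c x) (hAB : IsCompl A B)
    (hq : ∀ a ∈ A, ∀ b ∈ B, ∀ a' ∈ A, ∀ b' ∈ B, S.q (a * b) (a' * b') = S.zero ↔
      S.q a a' = S.zero ∧ S.q b b' = S.zero) (xa : A) (xb : B) (ya : A) (yb : B) :
    (QS.prod (sub S A a0 hdA h4A) (sub S B b0 hdB h4B)).q (xa, xb) (ya, yb) =
      (QS.prod (sub S A a0 hdA h4A) (sub S B b0 hdB h4B)).zero ↔
        S.q (prodEquiv A B hAB (xa, xb)) (prodEquiv A B hAB (ya, yb)) = S.zero := by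
  rw [prodEquiv_apply, prodEquiv_apply, hq _ xa.2 _ xb.2 _ ya.2 _ yb.2]
  show ((sub S A a0 hdA h4A).q xa ya, (sub S B b0 hdB h4B).q xb yb) =
      ((sub S A a0 hdA h4A).zero, (sub S B b0 hdB h4B).zero) ↔ _
  rw [Prod.mk.injEq]
  exact and_congr (sub_zero_iff S A a0 hdA h4A xa ya) (sub_zero_iff S B b0 hdB h4B xb yb)

/-- Recognition of products. -/
theorem prodrec (S : QStruct) (A B : Subgroup S.G) (hAB : IsCompl A B) {a0 b0 : S.G} (ha0 : a0 ∈ A)
    (hb0 : b0 ∈ B) (hn : a0 * b0 = S.neg)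
    (hq : ∀ a ∈ A, ∀ b ∈ B, ∀ a' ∈ A, ∀ b' ∈ B, S.q (a * b) (a' * b') = S.zero ↔
      S.q a a' = S.zero ∧ S.q b b' = S.zero) :
    ∃ (SA SB : QStruct) (f : SA.G ≃* A) (g : SB.G ≃* B), (f SA.neg : S.G) = a0 ∧
      (g SB.neg : S.G) = b0 ∧
      (∀ x y, SA.q x y = SA.zero ↔ S.q (f x) (f y) = S.zero) ∧
      (∀ x y, SB.q x y = SB.zero ↔ S.q (g x) (g y) = S.zero) ∧ Iso (prod SA SB) S := by
  have keyA : ∀ a ∈ A, ∀ b ∈ A, ∀ x, S.q a b = S.q a x → ∀ xa ∈ A, ∀ xb ∈ B, xa * xb = x →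
      S.q a b = S.q a xa := by
    intro a ha b hb x hx xa hxa xb hxb e
    rw [S.qs3, ← e, ← mul_assoc] at hx
    have := (hq a ha 1 B.one_mem (b * xa) (A.mul_mem hb hxa) xb hxb).1 (by rwa [mul_one])
    rw [S.qs3]; exact this.1
  have keyB : ∀ a ∈ B, ∀ b ∈ B, ∀ x, S.q a b = S.q a x → ∀ xa ∈ A, ∀ xb ∈ B, xa * xb = x →
      S.q a b = S.q a xb := by
    intro a ha b hb x hx xa hxa xb hxb e
    rw [S.qs3, ← e, mul_left_comm] at hx
    have := (hq 1 A.one_mem a ha xa hxa (b * xb) (B.mul_mem hb hxb)).1 (by rwa [one_mul])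
    rw [S.qs3]; exact this.2
  have dec : ∀ x : S.G, ∃ xa ∈ A, ∃ xb ∈ B, xa * xb = x := by
    intro x
    have : x ∈ A ⊔ B := by rw [hAB.sup_eq_top]; trivial
    exact Subgroup.mem_sup.1 this
  have h4A : ∀ a ∈ A, ∀ b ∈ A, ∀ c ∈ A, ∀ d ∈ A, S.q a b = S.q c d →
      ∃ x ∈ A, S.q a b = S.q a x ∧ S.q c d = S.q c x := by
    intro a ha b hb c hc d hd e
    obtain ⟨x, h1, h2⟩ := S.qs4 a b c d e
    obtain ⟨xa, hxa, xb, hxb, ex⟩ := dec x
    exact ⟨xa, hxa, keyA a ha b hb x h1 xa hxa xb hxb ex, keyA c hc d hd x h2 xa hxa xb hxb ex⟩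
  have h4B : ∀ a ∈ B, ∀ b ∈ B, ∀ c ∈ B, ∀ d ∈ B, S.q a b = S.q c d →
      ∃ x ∈ B, S.q a b = S.q a x ∧ S.q c d = S.q c x := by
    intro a ha b hb c hc d hd e
    obtain ⟨x, h1, h2⟩ := S.qs4 a b c d e
    obtain ⟨xa, hxa, xb, hxb, ex⟩ := dec x
    exact ⟨xb, hxb, keyB a ha b hb x h1 xa hxa xb hxb ex, keyB c hc d hd x h2 xa hxa xb hxb ex⟩
  have hdA : ∀ a ∈ A, S.q a (a0 * a) = S.zero := by
    intro a ha
    have h := S.qs1 a
    rw [← hn, mul_right_comm] at h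
    exact ((hq a ha 1 B.one_mem (a0 * a) (A.mul_mem ha0 ha) b0 hb0).1 (by rwa [mul_one])).1
  have hdB : ∀ b ∈ B, S.q b (b0 * b) = S.zero := by
    intro b hb
    have h := S.qs1 b
    rw [← hn, mul_assoc] at h
    exact ((hq 1 A.one_mem b hb a0 ha0 (b0 * b) (B.mul_mem hb0 hb)).1 (by rwa [one_mul])).2
  refine ⟨sub S A ⟨a0, ha0⟩ hdA h4A, sub S B ⟨b0, hb0⟩ hdB h4B, MulEquiv.refl A, MulEquiv.refl B,
    rfl, rfl, sub_zero_iff S A ⟨a0, ha0⟩ hdA h4A, sub_zero_iff S B ⟨b0, hb0⟩ hdB h4B, ?_⟩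
  refine ESL.isoc_proof (QS.prod (sub S A ⟨a0, ha0⟩ hdA h4A) (sub S B ⟨b0, hb0⟩ hdB h4B)) S
    (prodEquiv A B hAB) ?_ ?_
  · exact hn
  · rintro ⟨xa, xb⟩ ⟨ya, yb⟩
    exact prod_iff S A B ⟨a0, ha0⟩ ⟨b0, hb0⟩ hdA hdB h4A h4B hAB hq xa xb ya yb

/-- Recognition of group extensions. -/
theorem extrec (S : QStruct) (H : Subgroup S.G) (t : S.G) (htH : t ∉ H)
    (hH : ∀ g, g ∈ H ∨ g * t ∈ H) (hneg : S.neg ∈ H)
    (h1 : ∀ h ∈ H, ∀ h' ∈ H, S.q h (h' * t) = S.zero ↔ h = 1)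
    (h2 : ∀ h ∈ H, ∀ h' ∈ H, S.q (h * t) (h' * t) = S.zero ↔ h' = S.neg * h) :
    ∃ (SH : QStruct) (f : SH.G ≃* H), (f SH.neg : S.G) = S.neg ∧
      (∀ x y, SH.q x y = SH.zero ↔ S.q (f x) (f y) = S.zero) ∧ Iso (ext SH) S := by
  have ht : t * t = 1 := S.exp_two t
  have h4 : ∀ a ∈ H, ∀ b ∈ H, ∀ c ∈ H, ∀ d ∈ H, S.q a b = S.q c d →
      ∃ x ∈ H, S.q a b = S.q a x ∧ S.q c d = S.q c x := by
    intro a ha b hb c hc d hd e
    obtain ⟨x, e1, e2⟩ := S.qs4 a b c d e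
    rcases hH x with hx | hx
    · exact ⟨x, hx, e1, e2⟩
    · have key : ∀ a ∈ H, ∀ b ∈ H, S.q a b = S.q a x → a = 1 := by
        intro a ha b hb e
        rw [S.qs3] at e
        apply (h1 a ha (b * (x * t)) (H.mul_mem hb hx)).1
        have : b * (x * t) * t = b * x := by
          calc b * (x * t) * t = b * x * (t * t) := by ac_rfl
            _ = b * x := by rw [ht, mul_one]
        rw [this]; exact e
      have a1 := key a ha b hb e1
      have c1 := key c hc d hd e2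
      subst a1 c1
      exact ⟨1, H.one_mem, by rw [one_q, one_q], by rw [one_q, one_q]⟩
  have hd : ∀ a ∈ H, S.q a (((⟨S.neg, hneg⟩ : H) : S.G) * a) = S.zero := fun a _ => S.qs1 a
  refine ⟨sub S H ⟨S.neg, hneg⟩ hd h4, MulEquiv.refl H, rfl,
    sub_zero_iff S H ⟨S.neg, hneg⟩ hd h4, ?_⟩
  refine ESL.isoc_proof (QS.ext (sub S H ⟨S.neg, hneg⟩ hd h4)) S
    (MulEquiv.ofBijective (extHom H t ht) (extHom_bij H t ht htH hH)) ?_ ?_
  · show extHom H t ht ((⟨S.neg, hneg⟩ : H), 1) = S.neg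
    rw [extHom_one]
  · rintro ⟨a, α⟩ ⟨b, β⟩
    exact (ext_zero_iff S H ⟨S.neg, hneg⟩ hd h4 _ _).trans
      (ext_iff' S H ⟨S.neg, hneg⟩ hd h4 rfl t ht h1 h2 a b α β)

/-! ### radicals -/

theorem mem_zpowers_two (S : QStruct) (r x : S.G) (hx : x ∈ Subgroup.zpowers r) : x = 1 ∨ x = r := by
  obtain ⟨n, rfl⟩ := hx
  rcases Int.even_or_odd' n with ⟨k, rfl | rfl⟩
  · left
    show r ^ (2 * k) = 1
    rw [zpow_mul, zpow_two, S.exp_two, one_zpow]
  · right
    show r ^ (2 * k + 1) = r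
    rw [zpow_add, zpow_mul, zpow_two, S.exp_two, one_zpow, one_mul, zpow_one]

theorem card_zpowers_two (S : QStruct) {r : S.G} (hr : r ≠ 1) :
    Nat.card (Subgroup.zpowers r) = 2 := by
  rw [Nat.card_zpowers, orderOf_eq_prime (p := 2)]
  · rw [pow_two]; exact S.exp_two r
  · exact hr

/-- **Radical reduction.** An element `r ≠ 1` of the radical splits off: `S = T × L` with `|L| = 2`, `q = 0` on
`L`; and `-1 ≠ 1` in `L` iff `r = -1`, in which case `-1 = 1` in `T`. -/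
theorem rad_split (S : QStruct) {r : S.G} (hr : r ≠ 1) (hr0 : ∀ b, S.q r b = S.zero) :
    ∃ T L : QStruct, Nat.card L.G = 2 ∧ (∀ a b, L.q a b = L.zero) ∧ (r = S.neg → L.neg ≠ 1 ∧ T.neg = 1) ∧
      (r ≠ S.neg → L.neg = 1) ∧ Nat.card T.G * 2 = Nat.card S.G ∧ Iso (prod T L) S := by
  have hx0 : ∀ x ∈ Subgroup.zpowers r, ∀ b, S.q x b = S.zero := by
    intro x hx b
    rcases mem_zpowers_two S r x hx with rfl | rfl
    · exact one_q S b
    · exact hr0 b
  have hmul : ∀ a ∈ Subgroup.zpowers r, ∀ b x, S.q (b * a) x = S.q b x := by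
    intro a ha b x
    rw [S.qs2, S.qs2 b, S.qs3, mul_right_comm, S.exp_two, one_mul, S.qs2]
    exact hx0 a ha x
  have main : ∀ B : Subgroup S.G, IsCompl B (Subgroup.zpowers r) → ∀ b0 ∈ B,
      ∀ a0 ∈ Subgroup.zpowers r, b0 * a0 = S.neg →
      ∃ T L : QStruct, Nat.card L.G = 2 ∧ (∀ a b, L.q a b = L.zero) ∧ (a0 ≠ 1 → L.neg ≠ 1) ∧
      (b0 = 1 → T.neg = 1) ∧
      (a0 = 1 → L.neg = 1) ∧ Nat.card T.G * 2 = Nat.card S.G ∧ Iso (prod T L) S := by
    intro B hB b0 hb0 a0 ha0 hn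
    obtain ⟨T, L, f, g, e1, e2, e3, e4, e5⟩ := prodrec S B (Subgroup.zpowers r) hB hb0 ha0 hn (by
      intro b hb a ha b' hb' a' ha'
      rw [hmul a ha, S.qs2, hmul a' ha', S.qs2]
      constructor
      · intro h
        exact ⟨h, hx0 a ha a'⟩
      · exact fun h => h.1)
    refine ⟨T, L, ?_, ?_, ?_, ?_, ?_, ?_, e5⟩
    · rw [Nat.card_congr g.toEquiv]; exact card_zpowers_two S hr
    · intro a b
      rw [e4]
      exact hx0 _ (g a).2 _
    · intro h h'
      apply h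
      rw [← e2, h', map_one]; rfl
    · intro h
      apply f.injective
      apply Subtype.ext
      rw [e1, h, map_one]; rfl
    · intro h
      apply g.injective
      apply Subtype.ext
      rw [e2, h, map_one]; rfl
    · rw [Nat.card_congr f.toEquiv, ← card_zpowers_two S hr, ← Nat.card_prod]
      exact Nat.card_congr (prodEquiv B (Subgroup.zpowers r) hB).toEquiv
  by_cases hn : r = S.neg
  · obtain ⟨B, hB⟩ := ESL.J2RX.exists_compl S.exp_two (Subgroup.zpowers r)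
    obtain ⟨T, L, c1, c2, c3, c4, -, c6, c7⟩ := main B hB 1 B.one_mem r (Subgroup.mem_zpowers r)
      (by rw [one_mul, hn])
    exact ⟨T, L, c1, c2, fun _ => ⟨c3 hr, c4 rfl⟩, fun h => absurd hn h, c6, c7⟩
  · -- a complement containing `-1`
    obtain ⟨B1, hB1⟩ := ESL.J2RX.exists_compl S.exp_two (Subgroup.zpowers r ⊔ Subgroup.zpowers S.neg)
    have hdis : Disjoint (Subgroup.zpowers S.neg) (Subgroup.zpowers r) := by
      rw [Subgroup.disjoint_def]
      intro x h1 h2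
      rcases mem_zpowers_two S _ x h1 with h | h
      · exact h
      · rcases mem_zpowers_two S _ x h2 with h' | h'
        · exact h'
        · exact absurd (h'.symm.trans h) hn
    have hB : IsCompl (B1 ⊔ Subgroup.zpowers S.neg) (Subgroup.zpowers r) := by
      constructor
      · rw [Subgroup.disjoint_def]
        intro x h1 h2
        obtain ⟨b, hb, n, hn', hbn⟩ := Subgroup.mem_sup.1 h1
        have hb1 : b = x * n := by
          rw [← hbn, mul_assoc]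
          rcases mem_zpowers_two S _ n hn' with rfl | rfl
          · simp
          · rw [S.exp_two, mul_one]
        have hb2 : b ∈ Subgroup.zpowers r ⊔ Subgroup.zpowers S.neg := by
          rw [hb1]
          exact Subgroup.mul_mem _ (Subgroup.mem_sup_left h2) (Subgroup.mem_sup_right hn')
        have hb3 : b = 1 := Subgroup.disjoint_def.1 hB1.disjoint hb hb2
        rw [hb3, one_mul] at hbn
        rw [← hbn] at h2 ⊢
        exact Subgroup.disjoint_def.1 hdis hn' h2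
      · rw [codisjoint_iff, sup_assoc, sup_comm (Subgroup.zpowers S.neg)]
        exact hB1.sup_eq_top
    obtain ⟨T, L, c1, c2, -, -, c5, c6, c7⟩ := main _ hB S.neg
      (Subgroup.mem_sup_right (Subgroup.mem_zpowers S.neg)) 1 (Subgroup.one_mem _) (mul_one _)
    exact ⟨T, L, c1, c2, fun h => absurd h hn, fun _ => c5 rfl, c6, c7⟩

/-- A degenerate finite structure is of elementary type if all smaller ones are. -/
theorem elemType_of_rad (S : QStruct) [Finite S.G] {r : S.G} (hr : r ≠ 1)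
    (hr0 : ∀ b, S.q r b = S.zero)
    (IH : ∀ T : QStruct, Nat.card T.G < Nat.card S.G → Finite T.G → ElemType T) : ElemType S := by
  obtain ⟨T, L, c1, c2, c3, c4, c5, c6⟩ := rad_split S hr hr0
  have hpos : 0 < Nat.card S.G := Nat.card_pos
  have hT : Nat.card T.G ≠ 0 := by
    intro h
    rw [h, zero_mul] at c5
    omega
  have hTf : Finite T.G := Nat.finite_of_card_ne_zero hT
  have hT2 : ElemType T := IH T (by omega) hTf
  have hL : ElemType L := by
    by_cases h : r = S.neg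
    · exact ElemType.L11 L c1 (c3 h).1 c2
    · exact ElemType.L10 L c1 (c4 h) c2
  exact ElemType.iso _ _ c6 (ElemType.prod T L hT2 hL)

end Pool.Agent.ETCM
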